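import Pool.Agent.Y158.FQ.Fin3
import Mathlib.NumberTheory.NumberField.Cyclotomic.PID

/-!
# Sections for Fermat quotients over `ℚ`, relative to the prime `ℓ`

Let `ℓ` be an odd regular prime and let `a`, `b` be natural numbers such that `ℓ` does not divide `a`,
`b`, `a + b`.  Let `X` be the smooth projective curve over `ℚ` with the equation

  `y ^ ℓ = x ^ a (1 - x) ^ b`,

of genus `(ℓ - 1) / 2`.  It has one point above each of the points `0`, `1`, `∞` of the `x`-line, and
this point is rational.  We prove in particular: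

*Let `s` be a section of the geometrically pro-`ℓ` fundamental group `π₁(X)^(ℓ) → G_ℚ` which over
`ℚ_ℓ` is given by a local point.  Then `s` is the section of a rational point of `X`, and this is one
of the three rational points above `0`, `1`, `∞`.*

Nothing is assumed at the other primes.  Some condition at `ℓ` is natural for pro-`ℓ` sections: Hoshi
constructed nongeometric pro-`ℓ` sections of curves over number fields for regular primes `ℓ`.

The curves `X` include the hyperelliptic curves `Y ^ 2 = 1 - 4 X ^ ℓ` (`hyperelliptic` below), so for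
`ℓ = 5` the curve `Y ^ 2 = 1 - 4 X ^ 5` of genus `2`, where the hypothesis on the class number is
`regular_five` below, and the Klein quartic `X ^ 3 Y + Y ^ 3 Z + Z ^ 3 X = 0` (`klein` below, with
`ℓ = 7`).

The theorem is stated for the function fields `F` of transcendence degree one over `ℚ` with a
nonconstant element `x`, and for the sections `s` of a quotient `Gal(N/F)` of the absolute Galois
group of `F` which fix an element `y` of `N` with `y ^ ℓ = x ^ a (1 - x) ^ b`, where `N` contains the
field `N₀` such that `Gal(N₀/ℚ(x, y))` is the geometrically pro-`ℓ` fundamental group of `X`.  So it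
contains the following two cases.

* `y` is in `F`, so that `F` is the function field of a curve with a nonconstant map to `X`.  Here
  `Gal(N/F)` may be the fundamental group of the curve or of an open subscheme of it
  (`proEll_unramified` below).  This contains the case of `X` itself, with `F = ℚ(x, y)`, `N = N₀`,
  and that of the Fermat curves over `ℚ` whose degree is a multiple of `ℓ` (`fermat` below).
* `y` is not in `F`, for example `F = ℚ(x)`, the function field of the line minus three points
  `U = ℙ¹ ∖ {0, 1, ∞}`, and `N` is the maximal pro-`ℓ` extension of `ℚ̄(x)` which is unramified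
  outside `0`, `1`, `∞` (`proEll_tripod` below).  The condition on `s` is that `x ^ a (1 - x) ^ b` is
  an `ℓ`-th power along `s`, that is, that the Kummer class of this function in
  `H¹(ℚ, μ_ℓ) = ℚˣ / ℚˣ ^ ℓ` is trivial.  So a section of `π₁(U)^(ℓ)` for which this class is
  trivial, and which over `ℚ_ℓ` is given by a point of `U` or a cusp, is there given by a cusp.

The local point is a place `p` of `N` with values in an algebraic closure of `ℚ_ℓ`.  The conclusion is
that `x` has the value `0`, `1` or `∞` at `p` and that all automorphisms `s g` map the valuation ring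
of `p` on `N₀` to itself.  So the section of `Gal(N₀/ℚ(x, y))` which is induced by `s` has image in
the decomposition group of a valuation ring of `N₀` above one of the three rational points; this means
that it is the section attached to this point.

The field `ℚ_ℓ` enters as the closure `Qell v` of `ℚ` in the completion `K_v` of `K = ℚ(ζ_ℓ)` at the
place `v` above `ℓ`, and the algebraic closure of `ℚ_ℓ` is that of `K_v`.

Proof.  Let `u ^ ℓ = x`, `w ^ ℓ = 1 - x`, `u ^ a w ^ b = y`.  The field `N₀` is also the geometrically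
pro-`ℓ` extension of the Fermat curve `u ^ ℓ + w ^ ℓ = 1`, which is, over `ℚ̄`, an unramified covering
of `X` of degree `ℓ`.  The automorphisms `s g` multiply `u` and `w` by `ℓ`-th roots of unity.  By
Hilbert 90 there are constants `c`, `c'` such that `c u`, `c' w` are fixed by all `s g`, and `c ^ ℓ`,
`c' ^ ℓ` are rational numbers, so `s` lifts to a twist of the Fermat curve.  Let `σ` be in the inertia
group of a prime `q ≠ ℓ`.  By a weight argument, applied to the elements of `G_ℚ` that fix `c` and
`c'`, the `ℓ`-th power of `s σ` acts trivially on the residue field of the Gauss valuation of `N₀` at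
`q`.  If `s σ` acted nontrivially on `u` or `w`, it would act on the Fermat curve by a rotation
without fixed points, as it fixes `u ^ a w ^ b`, and by its action on the residue field there would be
an automorphism of order `ℓ` of `N₀` over `ℚ̄` that induces this rotation.  There is no such
automorphism, since the geometrically pro-`ℓ` group of the quotient curve has no elements of order
`ℓ`.  Hence `c ^ ℓ`, `c' ^ ℓ` are, up to `ℓ`-th powers, powers of `ℓ`, and the local point at `ℓ`
shows that they are `ℓ`-th powers.  So `s` comes, over `K = ℚ(ζ_ℓ)`, from a section of the Fermat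
curve itself, where Kummer's proof of Fermat's last theorem for regular primes and Kummer's lemma can
be carried out in the fixed field of the section.  This gives the values of `x` and the invariance
of the valuation ring under `s g` for `g ∈ G_K`.  Finally `G_ℚ` is generated by `G_K` and the
decomposition group at `ℓ`, as `ℓ` is totally ramified in `K`, and `s` maps this decomposition group
to automorphisms which preserve the valuation ring of `p`.
-/

set_option autoImplicit false

open IsDedekindDomain NumberField Pool.Agent.W620.SC Pool.Agent.TH954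

namespace Pool.Agent.Results.MP_2f3286_ag.FermatQuotients

section definitions

/-- The maximal geometrically pro-`ℓ` unramified extension `N₀` of `ℚ(x, y)` in `Ω`: the compositum of
the finite Galois extensions in `Ω` of `ℚ̄(x, y)` whose degree is a power of `ℓ` and in which no
valuation ring over `ℚ̄` ramifies. -/
noncomputable def ProEll (ℓ : ℕ) {Ω : Type} [Field Ω] [Algebra ℚ Ω] (x y : Ω) : Set Ω :=
  Pool.Agent.Y157.PS.geomPro ℓ ℚ (IntermediateField.adjoin ℚ {x, y}) Ω

/-- The closure of `ℚ` in the completion `K_v` of a number field `K` at a place `v`.  For `v ∣ ℓ` this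
is the field `ℚ_ℓ`. -/
noncomputable def Qell {K : Type} [Field K] [NumberField K] (v : HeightOneSpectrum (𝓞 K)) :
    Subfield (v.adicCompletion K) :=
  (algebraMap ℚ (v.adicCompletion K)).fieldRange.topologicalClosure

/-- `z` is a unit of the valuation ring `W`. -/
def IsUnitAt {Ω : Type} [Field Ω] (W : ValuationSubring Ω) (z : Ω) : Prop :=
  z ≠ 0 ∧ z ∈ W ∧ z⁻¹ ∈ W

/-- For the line minus three points: the maximal extension in `Ω` of `ℚ̄(x)` which is a union of finite
Galois extensions `L` of degree a power of `ℓ` that are unramified outside `x = 0, 1, ∞`, that is, for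
each valuation ring `W` over `ℚ` at which `x` and `1 - x` are units each nonzero element of `L` has
the same value as an element of `ℚ̄(x)`. -/
def TripodEll (ℓ : ℕ) {Ω : Type} [Field Ω] [Algebra ℚ Ω] (x : Ω) : Set Ω :=
  {z | ∃ L : IntermediateField (IntermediateField.adjoin (algebraicClosure ℚ Ω) {x}) Ω,
    z ∈ L ∧ FiniteDimensional (IntermediateField.adjoin (algebraicClosure ℚ Ω) {x}) L ∧
    IsGalois (IntermediateField.adjoin (algebraicClosure ℚ Ω) {x}) L ∧
    (∃ m : ℕ, Module.finrank (IntermediateField.adjoin (algebraicClosure ℚ Ω) {x}) L = ℓ ^ m) ∧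
    ∀ W : ValuationSubring Ω, (∀ c : ℚ, algebraMap ℚ Ω c ∈ W) → IsUnitAt W x →
      IsUnitAt W (1 - x) → ∀ y ∈ L, y ≠ 0 →
        ∃ t ∈ IntermediateField.adjoin (algebraicClosure ℚ Ω) {x}, t ≠ 0 ∧ IsUnitAt W (y / t)}

end definitions

/-- If `x`, `y` are in `F`, the extension `N₀` is contained in the maximal extension of `F` which is
unramified at a set `U` of valuation rings over `ℚ`; so the theorem applies to the fundamental group
of every curve with function field `F`. -/
theorem proEll_unramified {F Ω : Type} [Field F] [Field Ω] [Algebra ℚ F] [Algebra F Ω]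
    [Algebra ℚ Ω] [IsScalarTower ℚ F Ω] [IsAlgClosed Ω] [Algebra.IsAlgebraic F Ω] (ℓ : ℕ)
    [Fact ℓ.Prime] (x y : F) (hx : Transcendental ℚ x)
    (hF : Algebra.IsAlgebraic (IntermediateField.adjoin ℚ {x}) F) (U : Set (ValuationSubring F))
    (hU : ∀ O ∈ U, ∀ c : ℚ, algebraMap ℚ F c ∈ O) :
    ProEll ℓ (algebraMap F Ω x) (algebraMap F Ω y) ⊆ unramified F Ω U :=
  fun z hz => Pool.Agent.Y158.FQ.geomPro_unr' ℓ x hx hF _
    (IntermediateField.subset_adjoin ℚ _ (by simp)) U hU z
    ((Pool.Agent.Y158.FQ.geomPro_base (k := ℚ) (K := ℚ) (X := x) (Y := y) (c := 1) (c' := 1)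
      (one_mem _) (one_mem _) one_ne_zero one_ne_zero (by rw [one_mul]) (by rw [one_mul]) z).2 hz)

/-- The extension `N₀` is contained in the maximal pro-`ℓ` extension of `ℚ̄(x)` which is unramified
outside `0`, `1`, `∞`; so the theorem applies to the line minus three points. -/
theorem proEll_tripod {F Ω : Type} [Field F] [Field Ω] [Algebra ℚ F] [Algebra F Ω]
    [Algebra ℚ Ω] [IsScalarTower ℚ F Ω] [IsAlgClosed Ω] [Algebra.IsAlgebraic F Ω] {ℓ : ℕ}
    [Fact ℓ.Prime] (hℓ : Odd ℓ) {a b : ℕ} (ha : ¬ ℓ ∣ a) (hb : ¬ ℓ ∣ b) (hab : ¬ ℓ ∣ a + b)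
    (x : F) (y : Ω) (hx : Transcendental ℚ x)
    (hF : Algebra.IsAlgebraic (IntermediateField.adjoin ℚ {x}) F)
    (hxy : y ^ ℓ = algebraMap F Ω (x ^ a * (1 - x) ^ b)) :
    ProEll ℓ (algebraMap F Ω x) y ⊆ TripodEll ℓ (algebraMap F Ω x) :=
  fun z hz => by
    obtain ⟨L, h1, h2, h3⟩ := Pool.Agent.Y158.FQ.proEll_trip hℓ ha hb hab x y hx hF hxy z hz
    exact ⟨L, h1, h2.fin, h2.gal, h2.card, h3⟩

/-- The curve `Y ^ 2 = 1 - 4 X ^ ℓ` is the curve with `a = b = 1`. -/
theorem hyperelliptic {F : Type} [Field F] [CharZero F] {ℓ : ℕ} {X Y : F}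
    (h : Y ^ 2 = 1 - 4 * X ^ ℓ) : X ^ ℓ = ((1 + Y) / 2) ^ 1 * (1 - (1 + Y) / 2) ^ 1 := by
  linear_combination (1 / 4 : F) * h

/-- The Klein quartic is the curve with `ℓ = 7`, `a = 1`, `b = 2`. -/
theorem klein {F : Type} [Field F] {X Y : F} (h : X ^ 3 * Y + Y ^ 3 + X = 0) :
    (-Y) ^ 7 = (-(X ^ 2 * Y)) ^ 1 * (1 - -(X ^ 2 * Y)) ^ 2 := by
  have h1 : X * (1 + X ^ 2 * Y) = -Y ^ 3 := by linear_combination h
  have h2 : X ^ 2 * (1 + X ^ 2 * Y) ^ 2 = Y ^ 6 := by
    rw [← mul_pow, h1]; ring
  linear_combination Y * h2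

/-- The Fermat curve of degree `ℓ m` maps to all these curves. -/
theorem fermat {F : Type} [Field F] {ℓ m : ℕ} (a b : ℕ) {X Y : F}
    (h : X ^ (ℓ * m) + Y ^ (ℓ * m) = 1) :
    (X ^ (m * a) * Y ^ (m * b)) ^ ℓ = (X ^ (ℓ * m)) ^ a * (1 - X ^ (ℓ * m)) ^ b := by
  rw [← h]
  ring

/-- The prime `5` is regular. -/
theorem regular_five (K : Type) [Field K] [NumberField K] [IsCyclotomicExtension {5} ℚ K] :
    ¬ 5 ∣ classNumber K := by
  have h := (classNumber_eq_one_iff (K := K)).2 (IsCyclotomicExtension.Rat.five_pid K)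
  rw [h]
  decide

end Pool.Agent.Results.MP_2f3286_ag.FermatQuotients

open Pool.Agent.Results.MP_2f3286_ag.FermatQuotients in
/-- **Sections for Fermat quotients over `ℚ`, relative to `ℓ`.**  Let `ℓ` be an odd prime that does
not divide the class number of `K = ℚ(ζ_ℓ)`, let `a`, `b` be natural numbers with `ℓ ∤ a`, `ℓ ∤ b`,
`ℓ ∤ a + b`, let `F` be a function field of transcendence degree one over `ℚ` with algebraic closure
`Ω`, and let `x` be a nonconstant element of `F`.  Let `N` be an extension of `F` in `Ω`, let `s` be a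
section of `Gal(N/F) → G_ℚ`, and let `y` be an element of `N` with `y ^ ℓ = x ^ a (1 - x) ^ b` that is
fixed by `s`, for example an element of `F`.  Assume that `N` contains `ProEll ℓ x y`, and let `p` be
a place of `N` with values in the algebraic closure of `ℚ_ℓ` that gives `s` over `ℚ_ℓ`.  Then `x` has
the value `0`, `1` or `∞` at `p`, and `s` is, on `ProEll ℓ x y`, a section with values in the
decomposition group of `p`. -/
theorem Pool.Agent.Results.MP_2f3286_ag.FermatQuotients.result
    (ℓ : ℕ) [Fact ℓ.Prime] (hℓ : ℓ ≠ 2) (K : Type) [Field K] [NumberField K]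
    [IsCyclotomicExtension {ℓ} ℚ K] (hreg : ¬ ℓ ∣ classNumber K) (a b : ℕ) (ha : ¬ ℓ ∣ a)
    (hb : ¬ ℓ ∣ b) (hab : ¬ ℓ ∣ a + b)
    (F Ω B : Type) [Field F] [Field Ω] [Field B] [Algebra ℚ F] [Algebra F Ω] [Algebra ℚ Ω]
    [Algebra ℚ B] [IsScalarTower ℚ F Ω] [IsAlgClosed Ω] [Algebra.IsAlgebraic F Ω]
    [IsAlgClosure ℚ B] (x : F) (hx : Transcendental ℚ x)
    (hF : Algebra.IsAlgebraic (IntermediateField.adjoin ℚ {x}) F)
    (N : IntermediateField F Ω) (s : GalSection ℚ F N B) (y : N)
    (hxy : y ^ ℓ = algebraMap F N (x ^ a * (1 - x) ^ b))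
    (hys : ∀ g : B ≃ₐ[ℚ] B, s.s g y = y)
    (hN : ProEll ℓ (algebraMap F Ω x) (y : Ω) ⊆ N)
    (v : HeightOneSpectrum (𝓞 K)) (hv : (ℓ : 𝓞 K) ∈ v.asIdeal)
    (p : Plc ℚ N (AlgebraicClosure (v.adicCompletion K)))
    (hp : s.GivenBy (Qell v) p) :
    (p.val (algebraMap F N x) 0 ∨ p.val (algebraMap F N x) 1 ∨ p.val (algebraMap F N x)⁻¹ 0) ∧
    ∀ (g : B ≃ₐ[ℚ] B) (z : N), (z : Ω) ∈ ProEll ℓ (algebraMap F Ω x) (y : Ω) →
      (s.s g z ∈ p.W ↔ z ∈ p.W) := by
  have hℓp : ℓ.Prime := Fact.out
  have hℓ2 : 2 < ℓ := lt_of_le_of_ne hℓp.two_le (Ne.symm hℓ)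
  have hodd : Odd ℓ := hℓp.odd_of_ne_two hℓ
  have hcop : (classNumber K).Coprime ℓ := ((Nat.Prime.coprime_iff_not_dvd hℓp).2 hreg).symm
  have hKL := Pool.Agent.Y158.KL.kummer_lemma (IsCyclotomicExtension.zeta_spec ℓ ℚ K) hℓ2 hcop
  obtain ⟨ζ, hζ⟩ : ∃ ζ : K, IsPrimitiveRoot ζ ℓ := ⟨_, IsCyclotomicExtension.zeta_spec ℓ ℚ K⟩
  have hvl : v = Pool.Agent.Y158.KL.lam hζ := by
    by_contra hne
    exact Pool.Agent.Y158.GR.ell_notMem hζ hne hv
  subst hvl
  exact Pool.Agent.Y158.FQ.fqFin2 hζ hodd hcop hKL ha hb hab x hx hF N s y hxy hys hN p hp
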