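import Pool.Agent.Y157.PS.TwQ
import Pool.Agent.W623.SecG.Loc2

/-!
# All sections of 100% of the twists come locally from one and the same rational point

Let `N ≥ 6` be even and let `e_1, …, e_N` be different integers which satisfy the condition `CrossRatio`
below, for instance `0, 1, 2, 3, 4, 5`.  For squarefree `d` let `C_d` be the curve
`d y² = ∏ (x - e_k)`, of genus `N/2 - 1 ≥ 2`, with function field `F = ℚ(x, y)` and with the rational
points `P_k = (e_k, 0)`.  Let `F_U` be the maximal extension of `F` unramified over `U`, where `U` is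
`C_d` or an open subcurve, so that `π₁(U) = Gal(F_U/F)`.  Let `M ⊆ F_U` be the maximal pro-2 extension
of `ℚ̄ F` which is unramified over `C_d`, so that `Gal(M/F)` is the geometrically pro-2 fundamental
group of `C_d`, and let `M₂ ⊆ M` be generated over `F` by the algebraic numbers and the square roots
of the functions `(x - e_i)/(x - e_j)`, the maximal abelian extension of exponent 2.

**Theorem.**  For all squarefree `d`, `|d| ≤ X`, with at most `C X (log X)^(-1/5)` exceptions, the
following is true for every section `s : G_ℚ → π₁(U)`.  There is exactly one branch point `P_i` such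
that the image of `s` in `Gal(M₂/F)` lies in the decomposition group of a prolongation to `M₂` of the
valuation of `F` at `P_i`.  For this `i`, for all prime numbers `p ∣ d` that divide neither `2` nor the
differences `e_j - e_k`, and for all places `V` of `ℚ̄` above `p`, with decomposition group
`D_V ≅ Gal(ℚ̄_p/ℚ_p)`: there is exactly one place of `M` above a branch point whose decomposition group
contains the image of `D_V` in `Gal(M/F)` under `s`, and this place lies above `P_i`.

So at all these primes `p` simultaneously the local section `Gal(ℚ̄_p/ℚ_p) → Gal(M/F)` given by `s` is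
the section of the rational point `P_i` of `C_d`, with the same `i`, and modulo 2 the same is true
globally.  Here the sections are arbitrary; it is not assumed that they are locally geometric.

In `MP_896029_ag.BranchPoints` the first part was proved, which concerns only the finite extensions
`M₂`; the second part concerns the whole geometrically pro-2 fundamental group, at the primes dividing
`d`.

The fundamental group is described through valuations.  Let `U` be a smooth geometrically connected
curve over `k` with function field `F`, let `Ω` be an algebraic closure of `F`, and let `F_U` be the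
maximal extension of `F` inside `Ω` which is unramified over the closed points of `U`, that is, over
their local rings, which are valuation rings of `F`.  Then `π₁(U) = Gal(F_U/F)`, and the map
`π₁(U) → G_k` is the restriction of automorphisms to the algebraic closure of `k` in `Ω`.

Proof.  A section `s` for `d` gives square classes `s_{kl}` of rational numbers, such that
`s_{kl} (x - e_k)(x - e_l)` is the square of an element of `F_U` fixed by `s`.  The number of `d`,
`|d| ≤ X`, with such a system which is not the one of a branch point is bounded by bilinear sums of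
Jacobi symbols (part G3 of helper262, parts SecC, SecE, SecG of helper623).  The local statement is
proved as follows.  (1) The Gauss valuation of `ℚ̄(x)` at `V` has exactly one prolongation `O` to `M`:
`M` can be embedded in the field of functions on an open disc around a branch point, the divisors of
functions on the disc are the ones of polynomials (Weierstrass preparation), and this gives an inertia
element at each branch point which fixes a prolongation.  `Gal(M/ℚ̄(x))` acts faithfully on the residue
field of `O`, and every automorphism of the residue field over that of `ℚ̄(x)` comes from it.  (2) By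
(1) for `σ` in the inertia group of `V` there is exactly one `γ ∈ Gal(M/ℚ̄(x))` with the same action as
`s(σ)` on the residue field of `O`.  A weight argument (finiteness of the class group of a function
field over a finite field) shows that `γ = 1` if `σ(√d) = √d`.  So `s(τ)` acts like an element `γ` of
order `2` for a generator `τ` of tame inertia.  (3) Every element of order `2` of `Gal(M/ℚ̄(x))` fixes
exactly one place `W` of `M`.  (4) By (3) the place `W` is fixed by `s(D_V)`.  (5) The square roots of
the functions `(x - e_j)(x - e_k)(e_i - e_j)(e_i - e_k)` that are fixed by `s` show that the branch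
point under `W` is the point `P_i` of the first part.
-/

open Polynomial

namespace Pool.Agent.Results.MP_2f3286_ag.OnePointLocally

section definitions

variable (ℓ : ℕ) (k F Ω : Type) [Field k] [Field F] [Field Ω] [Algebra k F] [Algebra F Ω]
  [Algebra k Ω]

/-- The inertia group of the valuation ring `W` of `Ω`, as a subgroup of `Gal(Ω/F)`: the
automorphisms of `Ω` over `F` that map `W` onto itself and act as the identity on its residue
field. -/
noncomputable def inertia (W : ValuationSubring Ω) : Subgroup (Ω ≃ₐ[F] Ω) :=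
  (W.inertiaSubgroup F).map (W.decompositionSubgroup F).subtype

/-- `F_U`, for a set `U` of valuation rings of `F`: the elements of `Ω` fixed by the inertia groups
of all valuation rings `W` of `Ω` with `W ∩ F ∈ U`.  If `Ω` is an algebraic closure of a field `F`
of characteristic zero, this is the maximal extension of `F` in `Ω` unramified over `U`. -/
noncomputable def unramified (U : Set (ValuationSubring F)) : IntermediateField F Ω :=
  ⨅ W : {W : ValuationSubring Ω // W.comap (algebraMap F Ω) ∈ U},
    IntermediateField.fixedField (inertia F Ω W.1)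

/-- `k̄ F`, the compositum of `F` and of the algebraic closure of `k` in `Ω`. -/
noncomputable def geomField : IntermediateField F Ω :=
  IntermediateField.adjoin F (algebraicClosure k Ω : Set Ω)

/-- The algebraic extension `L` of `K` in `Ω` is unramified at all valuation rings of `Ω` that
contain `k`: every nonzero element of `L` has the same valuation as an element of `K`.  (If `K` is
a function field of one variable over the algebraic closure of `k` and `k` has characteristic zero,
then this says that `L/K` is unramified over all points of the smooth projective curve.) -/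
def Unramified {k K Ω : Type} [Field k] [Field K] [Field Ω] [Algebra k Ω] [Algebra K Ω]
    (L : IntermediateField K Ω) : Prop :=
  ∀ W : ValuationSubring Ω, (∀ c : k, algebraMap k Ω c ∈ W) → ∀ z ∈ L, z ≠ 0 →
    ∃ t : K, t ≠ 0 ∧ z / algebraMap K Ω t ∈ W ∧ (z / algebraMap K Ω t)⁻¹ ∈ W

/-- `L/K` is a finite Galois extension whose degree is a power of `ℓ`. -/
def FiniteProEll (ℓ : ℕ) {K Ω : Type} [Field K] [Field Ω] [Algebra K Ω]
    (L : IntermediateField K Ω) : Prop :=
  FiniteDimensional K L ∧ IsGalois K L ∧ ∃ m : ℕ, Module.finrank K L = ℓ ^ m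

/-- The maximal unramified pro-`ℓ` extension of `K` in `Ω`: the compositum of the finite Galois
extensions of `K` whose degree is a power of `ℓ` and which are unramified. -/
noncomputable def maxProEll (ℓ : ℕ) (k K Ω : Type) [Field k] [Field K] [Field Ω] [Algebra k Ω]
    [Algebra K Ω] : IntermediateField K Ω :=
  ⨆ L : {L : IntermediateField K Ω // FiniteProEll ℓ L ∧ Unramified (k := k) L}, L.1

/-- `M`, the maximal unramified pro-`ℓ` extension of `k̄ F` in `Ω`, as an extension of `F`. -/
noncomputable def proEllField : IntermediateField F Ω :=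
  (maxProEll ℓ k (geomField k F Ω) Ω).restrictScalars F

/-- The map `τ : M → M` acts as `σ : K → K` on the elements that the fields `K` and `M` have in
common when they are regarded as subfields of `Ω` through `i` and `j`. -/
def ActsAs {K M Ω : Type} [Field K] [Field M] [Field Ω] (i : K →+* Ω) (j : M →+* Ω) (σ : K → K)
    (τ : M → M) : Prop :=
  ∀ c z, j z = i c → j (τ z) = i (σ c)

/-- Let `k ⊆ K ⊆ Ω` and `F ⊆ N ⊆ Ω` be fields.  A splitting of `Gal(N/F) → Gal(K/k)`: a continuous
homomorphism `s` from `Gal(K/k)` to `Gal(N/F)` such that `s(σ)` acts as `σ` on the elements of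
`K ∩ N`. -/
structure Splitting (K N : Type) [Field K] [Field N] [Algebra k K] [Algebra F N] [Algebra K Ω]
    [Algebra N Ω] where
  /-- the homomorphism `Gal(K/k) → Gal(N/F)` -/
  toHom : (K ≃ₐ[k] K) →* (N ≃ₐ[F] N)
  cont : Continuous toHom
  compat : ∀ σ : K ≃ₐ[k] K, ActsAs (algebraMap K Ω) (algebraMap N Ω) σ (toHom σ)

/-- The sections of `π₁(U) = Gal(F_U/F) → G_k`: the continuous homomorphisms `s` from
`G_k = Gal(k̄/k)` to `Gal(F_U/F)`, where `k̄` is the algebraic closure of `k` in `Ω`, such that
`s(σ)` acts as `σ` on the elements of `k̄`. -/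
abbrev GaloisSection (U : Set (ValuationSubring F)) : Type :=
  Splitting k F Ω (algebraicClosure k Ω) (unramified F Ω U)

end definitions

section attached

variable {k F N L Ω K : Type} [Field k] [Field F] [Field N] [Field L] [Field Ω] [Algebra k F]
  [Algebra F Ω] [Algebra k Ω] [Algebra k L] [Algebra F N] [Algebra L Ω] [Algebra N Ω]

/-- `z` is algebraic over `k`, where `k` is mapped to `M` by `i`. -/
def AlgOver {k M : Type} [Field k] [Field M] (i : k →+* M) (z : M) : Prop :=
  ∃ p : k[X], p ≠ 0 ∧ p.eval₂ i z = 0

/-- The subfield `M₂` of the extension `N` of `F`, generated over `F` by all elements of `N` that are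
algebraic over `k`, and by all square roots in `N` of the functions `(x - e_i)/(x - e_j)`. -/
def M₂ (j : F →+* N) (e : K → k) (x : F) : Subfield N :=
  Subfield.closure (Set.range j ∪ {z | AlgOver (j.comp (algebraMap k F)) z} ∪
    {z | ∃ i i', z ^ 2 * j (x - algebraMap k F (e i')) = j (x - algebraMap k F (e i))})

/-- The valuation ring `W` of `N` contains `k`, and the function `t ∈ F` is in its maximal ideal.  For
`t = x - e_i` this says that `W` is a prolongation of the valuation ring of `F` at the branch point
`P_i`. -/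
def ZeroAt (k : Type) {F N : Type} [Field k] [Field F] [Field N] [Algebra k F] [Algebra F N]
    (W : ValuationSubring N) (t : F) : Prop :=
  (∀ c : k, algebraMap F N (algebraMap k F c) ∈ W) ∧ algebraMap F N t ∈ W.nonunits

/-- The splitting `s` of `Gal(N/F) → Gal(L/k)` is attached modulo 2 to the branch point `P_i`: there
is a valuation ring `W` of `N` above `P_i`, such that the image of `s` lies in the decomposition group
of `W ∩ M₂`. -/
def AttachedModTwo (e : K → k) (x : F) (s : Splitting k F Ω L N) (i : K) : Prop :=
  ∃ W : ValuationSubring N, ZeroAt k W (x - algebraMap k F (e i)) ∧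
    ∀ z ∈ M₂ (algebraMap F N) e x, ∀ σ, s.toHom σ z ∈ W ↔ z ∈ W

/-- Let `D_V` be the decomposition group of the valuation ring `V` of `L` in `Gal(L/k)`.  The image of
`D_V` under `s : Gal(L/k) → Gal(N/F)` in `Gal(M/F)`, where `M ⊆ N ⊆ Ω`, is contained in the
decomposition group of the valuation ring `W ∩ M`. -/
def LocallyIn (V : ValuationSubring L) (s : Splitting k F Ω L N) (M : IntermediateField F Ω)
    (W : ValuationSubring N) : Prop :=
  ∀ σ : L ≃ₐ[k] L, (∀ c : L, σ c ∈ V ↔ c ∈ V) →
    ∀ z : N, algebraMap N Ω z ∈ M → (s.toHom σ z ∈ W ↔ z ∈ W)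

/-- The restriction of `s` to `D_V` is the section of the branch point `P_i`, and of no other branch
point: there is a valuation ring `W` of `N` above `P_i` such that the image of `D_V` in `Gal(M/F)`
lies in the decomposition group of `W ∩ M`, and `W ∩ M` is the only valuation ring of `M` above a
branch point with this property. -/
def LocallyAt (V : ValuationSubring L) (e : K → k) (x : F) (s : Splitting k F Ω L N)
    (M : IntermediateField F Ω) (i : K) : Prop :=
  ∃ W : ValuationSubring N, ZeroAt k W (x - algebraMap k F (e i)) ∧ LocallyIn V s M W ∧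
    ∀ (j : K) (W' : ValuationSubring N), ZeroAt k W' (x - algebraMap k F (e j)) →
      LocallyIn V s M W' → ∀ z : N, algebraMap N Ω z ∈ M → (z ∈ W' ↔ z ∈ W)

/-- `p` is a prime number which divides `d`, and neither `2` nor the differences of the `e_j`. -/
def GoodPrime (e : K → ℤ) (d : ℤ) (p : ℕ) : Prop :=
  p.Prime ∧ (p : ℤ) ∣ d ∧ ¬ (p : ℤ) ∣ 2 ∧ ∀ i j, i ≠ j → ¬ (p : ℤ) ∣ e i - e j

/-- The section `s` comes from the branch point `P_i` globally modulo 2 and locally, at all good
primes `p` and all places `V` of `L` above `p`, in the whole group `Gal(M/F)`; and modulo 2 it does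
not come from any other branch point. -/
def ComesFrom (e : K → ℤ) (d : ℤ) (x : F) (s : Splitting k F Ω L N) (M : IntermediateField F Ω)
    (i : K) : Prop :=
  (∀ j, AttachedModTwo (fun j => (e j : k)) x s j ↔ j = i) ∧
    ∀ p : ℕ, GoodPrime e d p → ∀ V : ValuationSubring L, (p : L) ∈ V.nonunits →
      LocallyAt V (fun j => (e j : k)) x s M i

end attached

/-- Let `F` be the function field of the curve `d y² = ∏ (x - e_i)` over `k`, let `Ω` be an algebraic
closure of `F`, and let `M` be the maximal unramified pro-2 extension of `k̄ F` in `Ω`.  For every set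
`U` of valuation rings of `F` over `k` and every section of `π₁(U) → G_k` there is a branch point from
which the section comes.  Such `U` are given by the smooth projective curve and by all its open
subcurves. -/
def AllSectionsComeFromPoints (k : Type) [Field k] {K : Type} [Fintype K] (e : K → ℤ) (d : ℤ) :
    Prop :=
  ∀ (F Ω : Type) [Field F] [Field Ω] [Algebra k F] [Algebra F Ω] [Algebra k Ω]
    [IsScalarTower k F Ω] [IsAlgClosure F Ω] (x y : F) (U : Set (ValuationSubring F)),
    Transcendental k x → algebraMap k F (d : k) * y ^ 2 = ∏ i, (x - algebraMap k F (e i : k)) →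
    IntermediateField.adjoin k {x, y} = (⊤ : IntermediateField k F) →
    (∀ O ∈ U, ∀ c : k, algebraMap k F c ∈ O) →
    ∀ s : GaloisSection k F Ω U, ∃ i : K, ComesFrom e d x s (proEllField 2 k F Ω) i

/-- The condition on the branch points: for `i ≠ k` there are `l, l'` different from `i` and `k`, such
that the integer `(e_i - e_l) (e_i - e_l') (e_k - e_l) (e_k - e_l')` is not a square. -/
def CrossRatio {K : Type} (e : K → ℤ) : Prop :=
  ∀ i k, i ≠ k → ∃ l l', l ≠ i ∧ l ≠ k ∧ l' ≠ i ∧ l' ≠ k ∧
    ¬ IsSquare ((e i - e l) * (e i - e l') * ((e k - e l) * (e k - e l')))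

lemma iSup_congr_prop {α : Type} [CompleteLattice α] {P Q : α → Prop} (h : ∀ L, P L ↔ Q L) :
    (⨆ L : {L // P L}, L.1) = ⨆ L : {L // Q L}, L.1 := by
  have h1 : P = Q := funext fun L => propext (h L)
  subst h1
  rfl

lemma proEll_eq (ℓ : ℕ) (k F Ω : Type) [Field k] [Field F] [Field Ω] [Algebra k F] [Algebra F Ω]
    [Algebra k Ω] : proEllField ℓ k F Ω = Pool.Agent.Y157.PS.geomPro ℓ k F Ω := by
  unfold proEllField Pool.Agent.Y157.PS.geomPro maxProEll Pool.Agent.Y157.PS.maxPro
  congr 1
  refine iSup_congr_prop fun L => ?_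
  constructor
  · rintro ⟨⟨h1, h2, h3⟩, h4⟩
    refine ⟨⟨h1, h2, h3⟩, fun W hW z hz hz0 => ?_⟩
    obtain ⟨t, ht, h5, h6⟩ := h4 W hW z hz hz0
    exact ⟨t, ht, div_ne_zero hz0 ((_root_.map_ne_zero _).2 ht), h5, h6⟩
  · rintro ⟨⟨h1, h2, h3⟩, h4⟩
    refine ⟨⟨h1, h2, h3⟩, fun W hW z hz hz0 => ?_⟩
    obtain ⟨t, ht, -, h5, h6⟩ := h4 W hW z hz hz0
    exact ⟨t, ht, h5, h6⟩

lemma prod_non {k F N K : Type} [Field k] [Field F] [Field N] [Algebra k F] [Algebra F N]
    [Fintype K] [DecidableEq K] (e : K → k) (x : F) (j : K) (W : ValuationSubring N)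
    (hW : ZeroAt k W (x - algebraMap k F (e j))) :
    algebraMap F N (∏ i, (x - algebraMap k F (e i))) ∈ W.nonunits := by
  rw [map_prod, ← Finset.prod_erase_mul _ _ (Finset.mem_univ j)]
  refine Pool.Agent.Y157.PS.non_mul ?_ hW.2
  refine prod_mem fun i _ => ?_
  have h5 : algebraMap F N (x - algebraMap k F (e i)) = algebraMap F N (x - algebraMap k F (e j)) +
      algebraMap F N (algebraMap k F (e j - e i)) := by
    rw [← map_add]
    congr 1
    rw [map_sub]
    ring
  rw [h5]
  exact add_mem (Pool.Agent.Y157.PS.non_mem hW.2) (hW.1 _)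

lemma M₂_eq {k F Ω : Type} [Field k] [Field F] [Field Ω] [Algebra k F]
    [Algebra F Ω] [Algebra k Ω] [IsScalarTower k F Ω] (U : Set (ValuationSubring F)) {K : Type}
    (e : K → k) (x : F) : M₂ (algebraMap F (unramified F Ω U)) e x =
      (Pool.Agent.W623.SecG.Mtwo (Ω := Ω) k U e x).toSubfield := by
  have halg : ∀ z : unramified F Ω U,
      AlgOver ((algebraMap F (unramified F Ω U)).comp (algebraMap k F)) z ↔ IsAlgebraic k z := by
    intro z
    have h1 : (algebraMap F (unramified F Ω U)).comp (algebraMap k F) =
        algebraMap k (unramified F Ω U) := by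
      ext c
      exact (IsScalarTower.algebraMap_apply k F Ω c).symm
    unfold AlgOver
    rw [h1]
    rfl
  have hset : (Set.range (algebraMap F (unramified F Ω U)) ∪
      {z | AlgOver ((algebraMap F (unramified F Ω U)).comp (algebraMap k F)) z} ∪
      {z | ∃ i i', z ^ 2 * (algebraMap F (unramified F Ω U)) (x - algebraMap k F (e i')) =
        (algebraMap F (unramified F Ω U)) (x - algebraMap k F (e i))}) =
      Set.range (algebraMap F (unramified F Ω U)) ∪ ({z | IsAlgebraic k z} ∪
        {z | ∃ i j, z ^ 2 * algebraMap F _ (x - algebraMap k F (e j)) =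
          algebraMap F _ (x - algebraMap k F (e i))}) := by
    rw [Set.union_assoc]
    congr 2
    ext z
    exact halg z
  unfold M₂
  rw [hset]
  rfl

/-- from sections attached in the sense of square classes to the result -/
lemma comes_of (k : Type) [Field k] [CharZero k] {K : Type} [Fintype K] [DecidableEq K]
    (e : K → ℤ) (he : Function.Injective e) (hev : Even (Fintype.card K)) (d : ℤ) (hd : d ≠ 0)
    (hCR : ∀ i j, i ≠ j → ∃ l l', l ≠ i ∧ l ≠ j ∧ l' ≠ i ∧ l' ≠ j ∧
      ¬ IsSquare (((e i : k) - e l) * (e i - e l') * ((e j - e l) * (e j - e l'))))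
    (hloc : ∀ p : ℕ, GoodPrime e d p → Pool.Agent.Y157.PS.TwStm k e d p)
    (hex : ∀ (F Ω : Type) [Field F] [Field Ω] [Algebra k F] [Algebra F Ω]
      [Algebra k Ω] [IsScalarTower k F Ω] [IsAlgClosed Ω] [Algebra.IsAlgebraic F Ω]
      (U : Set (ValuationSubring F)) (G : Pool.Agent.W620.SC.GSection k F Ω U) (x y : F),
      (∀ O ∈ U, ∀ c : k, algebraMap k F c ∈ O) → Transcendental k x →
      algebraMap k F (d : k) * y ^ 2 = ∏ i, (x - algebraMap k F (e i : k)) →
      ∃ i, Pool.Agent.W623.SecG.AtK G x (fun j => (e j : k)) i) :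
    AllSectionsComeFromPoints k e d := by
  intro F Ω _ _ _ _ _ _ _ x y U hx hxy hF hU s
  have hcl : IsAlgClosed Ω := IsAlgClosure.isAlgClosed F
  have halg : Algebra.IsAlgebraic F Ω := IsAlgClosure.isAlgebraic
  have hek : Function.Injective (fun j => (e j : k)) := by
    intro i j hij
    apply he
    have h1 : (e i : k) = (e j : k) := hij
    exact_mod_cast h1
  have hdk : (d : k) ≠ 0 := by exact_mod_cast hd
  obtain ⟨i, hi⟩ := hex F Ω U ⟨s.toHom, s.cont, s.compat⟩ x y hU hx hxy
  have hat := Pool.Agent.W623.SecG.attached hU ⟨s.toHom, s.cont, s.compat⟩ (fun j => (e j : k)) hek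
    (d : k) hdk x y hx hxy hev i hF hi
  have hM := M₂_eq (Ω := Ω) U (fun j => (e j : k)) x
  have hmem : ∀ z, z ∈ M₂ (algebraMap F (unramified F Ω U)) (fun j => (e j : k)) x ↔
      z ∈ Pool.Agent.W623.SecG.Mtwo (Ω := Ω) k U (fun j => (e j : k)) x := fun z => by
    rw [hM]
    rfl
  refine ⟨i, fun j => ⟨fun hj => ?_, ?_⟩, fun p hp V hV => ?_⟩
  · by_contra hne
    obtain ⟨l, l', h1, h2, h3, h4, hsq⟩ := hCR i j (Ne.symm hne)
    apply hsq
    obtain ⟨W, hW1, hW2, -, hW3⟩ := hat
    obtain ⟨W', ⟨hW1', hW2'⟩, hW3'⟩ := hj
    exact Pool.Agent.W623.SecG.attached_unique hU ⟨s.toHom, s.cont, s.compat⟩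
      (fun j => (e j : k)) hek (d : k) hdk x y hx hxy
      i j ⟨W, hW1, hW2, hW3⟩ ⟨W', hW1', hW2', fun z hz => hW3' z ((hmem z).2 hz)⟩ l l' h1 h2 h3 h4
  · rintro rfl
    obtain ⟨W, h1, h2, -, h4⟩ := hat
    exact ⟨W, ⟨h1, h2⟩, fun z hz => h4 z ((hmem z).1 hz)⟩
  · obtain ⟨W, ⟨⟨h1, h2⟩, h3⟩, h4⟩ := hloc p hp F Ω U hU ⟨s.toHom, s.cont, s.compat⟩ x y hx hxy hF i
      hi V hV
    rw [proEll_eq]
    refine ⟨W, ⟨h1, h2⟩, fun σ hσ z hz => h3 σ hσ z hz, fun j W' hW' hst z hz => ?_⟩
    exact h4 W' hW'.1 (prod_non (fun j => (e j : k)) x j W' hW') (fun σ hσ z hz => hst σ hσ z hz) z hz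

lemma crossRatio_ex : CrossRatio (fun i : Fin 6 => (i : ℤ)) := by
  have h : ∀ i k : Fin 6, i ≠ k → ∃ l l' : Fin 6, l ≠ i ∧ l ≠ k ∧ l' ≠ i ∧ l' ≠ k ∧
      (((i : ℕ) : ℤ) - ((l : ℕ) : ℤ)) * (((i : ℕ) : ℤ) - ((l' : ℕ) : ℤ)) *
        ((((k : ℕ) : ℤ) - ((l : ℕ) : ℤ)) * (((k : ℕ) : ℤ) - ((l' : ℕ) : ℤ))) < 900 ∧
      ∀ r : Fin 30, (((i : ℕ) : ℤ) - ((l : ℕ) : ℤ)) * (((i : ℕ) : ℤ) - ((l' : ℕ) : ℤ)) *
        ((((k : ℕ) : ℤ) - ((l : ℕ) : ℤ)) * (((k : ℕ) : ℤ) - ((l' : ℕ) : ℤ))) ≠
        ((r : ℕ) : ℤ) * ((r : ℕ) : ℤ) := by
    decide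
  intro i k hik
  obtain ⟨l, l', h1, h2, h3, h4, h5, h6⟩ := h i k hik
  refine ⟨l, l', h1, h2, h3, h4, ?_⟩
  rintro ⟨r, hr⟩
  simp only at hr
  rw [hr] at h5
  have h7 : r.natAbs < 30 := by
    by_contra hge
    push Not at hge
    have h8 : (r.natAbs : ℤ) * (r.natAbs : ℤ) = r * r := Int.natAbs_mul_self
    have h9 : (30 : ℤ) ≤ (r.natAbs : ℤ) := by exact_mod_cast hge
    nlinarith
  apply h6 ⟨r.natAbs, h7⟩
  rw [hr]
  exact Int.natAbs_mul_self.symm

/-- (1) Let `e_k` be `N` different integers, where `N ≥ 6` is even, that satisfy the condition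
`CrossRatio`.  Then for all squarefree `d`, `|d| ≤ X`, with at most `C X (log X)^(-1/5)` exceptions,
every section of the fundamental group of the curve `d y² = ∏ (x - e_k)`, or of an open subcurve,
comes from exactly one of the rational points `(e_k, 0)` globally modulo 2, and from this point in the
whole geometrically pro-2 fundamental group locally at all primes `p ∣ d` which divide neither `2` nor
the differences `e_j - e_k`.  (2) The integers `0, …, 5` satisfy the condition `CrossRatio`. -/
theorem result :
    (∀ (K : Type) [Fintype K] (e : K → ℤ), Function.Injective e → Even (Fintype.card K) →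
      6 ≤ Fintype.card K → CrossRatio e → ∃ C : ℝ, ∀ X : ℕ, 2 ≤ X →
        ({d : ℤ | d.natAbs ≤ X ∧ Squarefree d ∧ ¬ AllSectionsComeFromPoints ℚ e d}.ncard : ℝ) ≤
          C * X * (Real.log X) ^ (-(1 / 5) : ℝ)) ∧
    CrossRatio (fun i : Fin 6 => (i : ℤ)) := by
  refine ⟨?_, crossRatio_ex⟩
  intro K _ e he hev hK hCR
  classical
  obtain ⟨C, hC⟩ := Pool.Agent.W262.G3.fin2.{0, 0} Pool.Agent.W623.SecG.secloc2
    Pool.Agent.W623.SecE.secglob K e he hev hK hCR
  refine ⟨C, fun X hX => le_trans ?_ (hC X hX)⟩
  have hfin : {d : ℤ | d.natAbs ≤ X ∧ Squarefree d ∧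
      Pool.Agent.W623.SecG.Bad2.{0, 0} e d}.Finite := by
    refine (Finset.finite_toSet (Finset.Icc (-(X : ℤ)) X)).subset ?_
    rintro d ⟨hd1, -⟩
    rw [Finset.mem_coe, Finset.mem_Icc]
    omega
  have hsub : {d : ℤ | d.natAbs ≤ X ∧ Squarefree d ∧ ¬ AllSectionsComeFromPoints ℚ e d} ⊆
      {d : ℤ | d.natAbs ≤ X ∧ Squarefree d ∧ Pool.Agent.W623.SecG.Bad2.{0, 0} e d} := by
    rintro d ⟨hd1, hd2, hd3⟩
    refine ⟨hd1, hd2, ?_⟩
    by_contra hbad
    apply hd3
    refine comes_of ℚ e he hev d hd2.ne_zero ?_ ?_ ?_
    · intro i j hij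
      obtain ⟨l, l', h1, h2, h3, h4, hsq⟩ := hCR i j hij
      refine ⟨l, l', h1, h2, h3, h4, fun h5 => hsq ?_⟩
      have h6 : ((e i : ℚ) - e l) * (e i - e l') * ((e j - e l) * (e j - e l')) =
          (((e i - e l) * (e i - e l') * ((e j - e l) * (e j - e l')) : ℤ) : ℚ) := by
        push_cast
        ring
      rw [h6, Rat.isSquare_intCast_iff] at h5
      exact h5
    · rintro p ⟨hp1, hp2, hp3, hp4⟩
      exact Pool.Agent.Y157.PS.twQ e hev (by omega) d hd2 p hp1 hp2 hp3 hp4
    · intro F Ω _ _ _ _ _ _ hcl halg U G x y hU hx hxy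
      by_contra hno
      push Not at hno
      refine hbad ⟨F, Ω, inferInstance, inferInstance, inferInstance, inferInstance,
        inferInstance, inferInstance, hcl, halg, U, G, x, y, hU, hx, ?_, fun k hk =>
        hno k (Pool.Agent.W623.SecG.atK_of_At G x e k hk)⟩
      simp only [map_intCast] at hxy
      exact hxy
  exact_mod_cast Set.ncard_le_ncard hsub hfin

end Pool.Agent.Results.MP_2f3286_ag.OnePointLocally
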